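import Mathlib
import Pool.Agent.TH360.RS.Poly
import Pool.Agent.TH360.RS.Diag

/-!
# Three-term progressions with further polynomial conditions
-/

set_option autoImplicit false

namespace Pool.Agent.K6.H42.LR

open Finset Module Pool.Agent.TH360.RS

variable {p : ℕ} [Fact p.Prime] {ι κ : Type*} [Fintype ι] [Fintype κ]

/-- composition with functions of degree at most `1` -/
theorem comp_mem_Pol {D : ℕ} {f : (ι → ZMod p) → ZMod p} (hf : f ∈ Pol p ι D)
    (φ : (κ → ZMod p) → ι → ZMod p) (hφ : ∀ e, (fun x => φ x e) ∈ Pol p κ 1) :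
    (fun x => f (φ x)) ∈ Pol p κ D := by
  induction hf using Submodule.span_induction with
  | mem f hf =>
    obtain ⟨m, hm, rfl⟩ := hf
    have h1 : (fun x => mono m (φ x)) = ∏ e, (fun x => φ x e) ^ m e := by
      funext x
      simp [mono, Finset.prod_apply]
    rw [h1]
    have h2 := prod_mem_Pol univ (fun e => (fun x => φ x e) ^ m e) (fun e => m e * 1)
      (fun e _ => pow_mem_Pol (hφ e) (m e))
    exact Pol_mono (by simpa using hm) h2
  | zero => exact Submodule.zero_mem _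
  | add f g _ _ h1 h2 => exact Submodule.add_mem _ h1 h2
  | smul c f _ h => exact Submodule.smul_mem _ c h

theorem line_poly {D : ℕ} {f : (ι → ZMod p) → ZMod p} (hf : f ∈ Pol p ι D) (x y : ι → ZMod p) :
    ∃ q : Polynomial (ZMod p), q.natDegree ≤ D ∧ ∀ t, f (x + t • y) = q.eval t := by
  induction hf using Submodule.span_induction with
  | mem f hf =>
    obtain ⟨m, hm, rfl⟩ := hf
    refine ⟨∏ e, (Polynomial.C (x e) + Polynomial.X * Polynomial.C (y e)) ^ m e, ?_, ?_⟩
    · refine (Polynomial.natDegree_prod_le _ _).trans ?_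
      refine (sum_le_sum fun e _ => (Polynomial.natDegree_pow_le (n := m e)).trans ?_).trans hm
      have h1 : (Polynomial.C (x e) + Polynomial.X * Polynomial.C (y e)).natDegree ≤ 1 := by
        refine (Polynomial.natDegree_add_le _ _).trans (max_le ?_ ?_)
        · simp
        · refine Polynomial.natDegree_mul_le.trans ?_
          simp
      calc m e * _ ≤ m e * 1 := Nat.mul_le_mul_left _ h1
        _ = m e := mul_one _
    · intro t
      simp only [mono, Polynomial.eval_prod, Polynomial.eval_pow, Polynomial.eval_add,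
        Polynomial.eval_C, Polynomial.eval_mul, Polynomial.eval_X, Pi.add_apply, Pi.smul_apply,
        smul_eq_mul]
  | zero => exact ⟨0, by simp, by simp⟩
  | add f g _ _ h1 h2 =>
    obtain ⟨q1, a1, b1⟩ := h1
    obtain ⟨q2, a2, b2⟩ := h2
    refine ⟨q1 + q2, (Polynomial.natDegree_add_le _ _).trans (max_le a1 a2), fun t => ?_⟩
    rw [Pi.add_apply, b1, b2, Polynomial.eval_add]
  | smul c f _ h =>
    obtain ⟨q1, a1, b1⟩ := h
    refine ⟨Polynomial.C c * q1, (Polynomial.natDegree_C_mul_le _ _).trans a1, fun t => ?_⟩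
    rw [Pi.smul_apply, b1, smul_eq_mul, Polynomial.eval_mul, Polynomial.eval_C]

/-- a polynomial of degree at most `2` which vanishes at three points of a progression vanishes on
the whole line -/
theorem quad_line (hp : 3 ≤ p) {f : (ι → ZMod p) → ZMod p} (hf : f ∈ Pol p ι 2)
    {x y : ι → ZMod p} (h0 : f x = 0) (h1 : f (x + y) = 0) (h2 : f (x + (2 : ZMod p) • y) = 0)
    (t : ZMod p) : f (x + t • y) = 0 := by
  classical
  obtain ⟨q, hq, hqe⟩ := line_poly hf x y
  have e0 : q.eval 0 = 0 := by rw [← hqe]; simpa using h0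
  have e1 : q.eval 1 = 0 := by rw [← hqe]; simpa using h1
  have e2 : q.eval 2 = 0 := by rw [← hqe]; exact h2
  have c2 : (2 : ZMod p) ≠ 0 := by
    intro h
    have h' : ((2 : ℕ) : ZMod p) = 0 := by exact_mod_cast h
    rw [ZMod.natCast_eq_zero_iff] at h'
    exact absurd (Nat.le_of_dvd (by norm_num) h') (by omega)
  have c1 : (1 : ZMod p) ≠ 0 := one_ne_zero
  have c12 : (1 : ZMod p) ≠ 2 := by
    intro h
    apply c1
    linear_combination -h
  have hq0 : q = 0 := by
    refine Polynomial.eq_zero_of_natDegree_lt_card_of_eval_eq_zero' q {0, 1, 2} ?_ ?_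
    · intro i hi
      simp only [mem_insert, mem_singleton] at hi
      rcases hi with rfl | rfl | rfl
      · exact e0
      · exact e1
      · exact e2
    · rw [card_insert_of_notMem, card_insert_of_notMem, card_singleton]
      · omega
      · simpa using c12
      · simp only [mem_insert, mem_singleton, not_or]
        exact ⟨c1.symm, c2.symm⟩
  rw [hqe, hq0, Polynomial.eval_zero]

/-! ### Splitting into three parts -/

theorem mono_elim (m : ι ⊕ ι ⊕ ι → ℕ) (x y z : ι → ZMod p) :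
    mono m (Sum.elim x (Sum.elim y z)) = mono (fun e => m (Sum.inl e)) x *
      (mono (fun e => m (Sum.inr (Sum.inl e))) y * mono (fun e => m (Sum.inr (Sum.inr e))) z) := by
  simp [mono, Fintype.prod_sum_type]

theorem split3 {D : ℕ} {F : (ι ⊕ ι ⊕ ι → ZMod p) → ZMod p} (hF : F ∈ Pol p (ι ⊕ ι ⊕ ι) D) :
    ∃ f₁ f₂ f₃ : (ι → ZMod p) → (ι → ZMod p) → (ι → ZMod p) → ZMod p,
      (∀ x y z, f₁ x y z + f₂ x y z + f₃ x y z = F (Sum.elim x (Sum.elim y z))) ∧
      (∀ y z, (fun x => f₁ x y z) ∈ Pol p ι (D / 3)) ∧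
      (∀ x z, (fun y => f₂ x y z) ∈ Pol p ι (D / 3)) ∧
      (∀ x y, (fun z => f₃ x y z) ∈ Pol p ι (D / 3)) := by
  induction hF using Submodule.span_induction with
  | mem f hf =>
    obtain ⟨m, hm, rfl⟩ := hf
    rw [Fintype.sum_sum_type, Fintype.sum_sum_type] at hm
    set m₁ : ι → ℕ := fun e => m (Sum.inl e) with hm₁
    set m₂ : ι → ℕ := fun e => m (Sum.inr (Sum.inl e)) with hm₂
    set m₃ : ι → ℕ := fun e => m (Sum.inr (Sum.inr e)) with hm₃
    have hcases : ∑ e, m₁ e ≤ D / 3 ∨ ∑ e, m₂ e ≤ D / 3 ∨ ∑ e, m₃ e ≤ D / 3 := by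
      have : ∑ e, m₁ e + (∑ e, m₂ e + ∑ e, m₃ e) ≤ D := hm
      omega
    rcases hcases with h | h | h
    · refine ⟨fun x y z => mono m₁ x * (mono m₂ y * mono m₃ z), fun _ _ _ => 0, fun _ _ _ => 0,
        fun x y z => by rw [mono_elim]; ring, fun y z => ?_, fun _ _ => Submodule.zero_mem _,
        fun _ _ => Submodule.zero_mem _⟩
      have : (fun x : ι → ZMod p => mono m₁ x * (mono m₂ y * mono m₃ z)) =
          (mono m₂ y * mono m₃ z) • mono m₁ := by
        funext x; simp [mul_comm]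
      rw [this]
      exact Submodule.smul_mem _ _ (mono_mem_Pol h)
    · refine ⟨fun _ _ _ => 0, fun x y z => mono m₁ x * (mono m₂ y * mono m₃ z), fun _ _ _ => 0,
        fun x y z => by rw [mono_elim]; ring, fun _ _ => Submodule.zero_mem _, fun x z => ?_,
        fun _ _ => Submodule.zero_mem _⟩
      have : (fun y : ι → ZMod p => mono m₁ x * (mono m₂ y * mono m₃ z)) =
          (mono m₁ x * mono m₃ z) • mono m₂ := by
        funext y; simp only [Pi.smul_apply, smul_eq_mul]; ring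
      rw [this]
      exact Submodule.smul_mem _ _ (mono_mem_Pol h)
    · refine ⟨fun _ _ _ => 0, fun _ _ _ => 0, fun x y z => mono m₁ x * (mono m₂ y * mono m₃ z),
        fun x y z => by rw [mono_elim]; ring, fun _ _ => Submodule.zero_mem _,
        fun _ _ => Submodule.zero_mem _, fun x y => ?_⟩
      have : (fun z : ι → ZMod p => mono m₁ x * (mono m₂ y * mono m₃ z)) =
          (mono m₁ x * mono m₂ y) • mono m₃ := by
        funext z; simp only [Pi.smul_apply, smul_eq_mul]; ring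
      rw [this]
      exact Submodule.smul_mem _ _ (mono_mem_Pol h)
  | zero =>
    exact ⟨fun _ _ _ => 0, fun _ _ _ => 0, fun _ _ _ => 0, fun _ _ _ => by simp,
      fun _ _ => Submodule.zero_mem _, fun _ _ => Submodule.zero_mem _,
      fun _ _ => Submodule.zero_mem _⟩
  | add F G _ _ h1 h2 =>
    obtain ⟨f₁, f₂, f₃, hf, a₁, a₂, a₃⟩ := h1
    obtain ⟨g₁, g₂, g₃, hg, b₁, b₂, b₃⟩ := h2
    refine ⟨fun x y z => f₁ x y z + g₁ x y z, fun x y z => f₂ x y z + g₂ x y z,
      fun x y z => f₃ x y z + g₃ x y z, fun x y z => ?_, fun y z => Submodule.add_mem _ (a₁ y z)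
      (b₁ y z), fun y z => Submodule.add_mem _ (a₂ y z) (b₂ y z), fun y z =>
      Submodule.add_mem _ (a₃ y z) (b₃ y z)⟩
    rw [Pi.add_apply, ← hf, ← hg]
    ring
  | smul c F _ h =>
    obtain ⟨f₁, f₂, f₃, hf, a₁, a₂, a₃⟩ := h
    refine ⟨fun x y z => c * f₁ x y z, fun x y z => c * f₂ x y z, fun x y z => c * f₃ x y z,
      fun x y z => ?_, fun y z => Submodule.smul_mem _ c (a₁ y z), fun y z =>
      Submodule.smul_mem _ c (a₂ y z), fun y z => Submodule.smul_mem _ c (a₃ y z)⟩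
    rw [Pi.smul_apply, ← hf, smul_eq_mul]
    ring

/-! ### Counting monomials -/

theorem finrank_Pol_card (n E : ℕ) : finrank (ZMod p) (Pol p (Fin n) E) ≤
    (univ.filter (fun m : Fin n → Fin p => ∑ e, (m e : ℕ) ≤ E)).card := by
  classical
  set M := univ.filter (fun m : Fin n → Fin p => ∑ e, (m e : ℕ) ≤ E) with hM
  have h1 : Pol p (Fin n) E ≤ Submodule.span (ZMod p)
      ((M.image (fun m => mono (p := p) (fun e => (m e : ℕ))) : Finset _) :
        Set ((Fin n → ZMod p) → ZMod p)) := by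
    refine Submodule.span_mono ?_
    rintro _ ⟨m, hm, rfl⟩
    rw [coe_image]
    refine ⟨fun e => ⟨red p (m e), red_lt (m e)⟩, ?_, mono_red m⟩
    rw [mem_coe, hM, mem_filter]
    refine ⟨mem_univ _, ?_⟩
    have : ∑ e, red p (m e) ≤ ∑ e, m e := sum_le_sum fun e _ => red_le (m e)
    change ∑ e, red p (m e) ≤ _
    omega
  refine (Submodule.finrank_mono h1).trans ((finrank_span_finset_le_card _).trans card_image_le)

theorem finrank_Pol_le (n E : ℕ) : (finrank (ZMod p) (Pol p (Fin n) E) : ℝ) ≤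
    (p : ℝ) ^ n * Real.exp (-(5 / 18 * n) + 2 * E / (3 * ((p : ℝ) - 1))) := by
  refine le_trans (Nat.cast_le.2 (finrank_Pol_card (p := p) n E)) ?_
  have hp2 := (Fact.out : p.Prime).two_le
  have hp : (2 : ℝ) ≤ p := by exact_mod_cast hp2
  have hp0 : (p : ℝ) - 1 ≠ 0 := by linarith
  have hp1 : (0 : ℝ) < (p : ℝ) - 1 := by linarith
  set c : Fin p → ℝ := fun a => 2 / (3 * ((p : ℝ) - 1)) * ((a : ℝ) - (p - 1) / 2) with hc
  set K : ℝ := 2 * E / (3 * ((p : ℝ) - 1)) - n / 3 with hK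
  have h1 : ∀ m : Fin n → Fin p, ∑ e, (m e : ℕ) ≤ E →
      1 ≤ Real.exp K * ∏ e, Real.exp (-(c (m e))) := by
    intro m hm
    rw [← Real.exp_sum, ← Real.exp_add]
    refine Real.one_le_exp ?_
    have h2 : ∑ e, ((m e : ℕ) : ℝ) ≤ E := by exact_mod_cast hm
    have h3 : ∑ e, -(c (m e)) =
        -(2 / (3 * ((p : ℝ) - 1)) * (∑ e, ((m e : ℕ) : ℝ) - n * ((p - 1) / 2))) := by
      rw [sum_neg_distrib, hc]
      simp only
      rw [← mul_sum, sum_sub_distrib]
      simp
    have h4 : K + ∑ e, -(c (m e)) =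
        2 / (3 * ((p : ℝ) - 1)) * (E - ∑ e, ((m e : ℕ) : ℝ)) := by
      rw [h3, hK]
      field_simp
      ring
    rw [h4]
    exact mul_nonneg (by positivity) (by linarith)
  have h2 : ((univ.filter (fun m : Fin n → Fin p => ∑ e, (m e : ℕ) ≤ E)).card : ℝ) ≤
      ∑ m : Fin n → Fin p, Real.exp K * ∏ e, Real.exp (-(c (m e))) := by
    rw [card_eq_sum_ones, Nat.cast_sum]
    push_cast
    refine (sum_le_sum fun m hm => h1 m (mem_filter.1 hm).2).trans ?_
    refine sum_le_sum_of_subset_of_nonneg (filter_subset _ _) fun m _ _ => ?_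
    positivity
  refine h2.trans ?_
  rw [← mul_sum]
  have h3 : ∑ m : Fin n → Fin p, ∏ e, Real.exp (-(c (m e))) =
      (∑ a : Fin p, Real.exp (-(c a))) ^ n := by
    rw [Fintype.sum_pow]
  rw [h3]
  have h4 : (∑ a : Fin p, Real.exp (-(c a))) ^ n ≤ (p * Real.exp (1 / 18)) ^ n :=
    pow_le_pow_left₀ (sum_nonneg fun a _ => (Real.exp_pos _).le) sum_exp_le n
  calc Real.exp K * (∑ a : Fin p, Real.exp (-(c a))) ^ n
      ≤ Real.exp K * (p * Real.exp (1 / 18)) ^ n := by gcongr
    _ = (p : ℝ) ^ n * Real.exp (K + n * (1 / 18)) := by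
        rw [mul_pow, ← Real.exp_nat_mul, Real.exp_add]
        ring
    _ = _ := by
        congr 2
        rw [hK]
        ring

/-! ### The bound -/

theorem delta (w : ι → ZMod p) [Decidable (w = 0)] :
    ∏ e : ι, (1 - w e ^ (p - 1)) = if w = 0 then (1 : ZMod p) else 0 := by
  have hp := (Fact.out : p.Prime).two_le
  split_ifs with h
  · refine prod_eq_one fun e _ => ?_
    rw [h, Pi.zero_apply, zero_pow (by omega), sub_zero]
  · obtain ⟨e, he⟩ : ∃ e, w e ≠ 0 := by
      by_contra hh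
      push Not at hh
      exact h (funext hh)
    refine prod_eq_zero (mem_univ e) ?_
    rw [ZMod.pow_card_sub_one_eq_one he, sub_self]

theorem eg (n g : ℕ) (B : Finset (Fin n → ZMod p))
    (G : (Fin n ⊕ Fin n ⊕ Fin n → ZMod p) → ZMod p) (hG : G ∈ Pol p (Fin n ⊕ Fin n ⊕ Fin n) g)
    (h1 : ∀ x ∈ B, G (Sum.elim x (Sum.elim x x)) = 1)
    (h2 : ∀ x ∈ B, ∀ y ∈ B, ∀ z ∈ B, x + z = y + y → G (Sum.elim x (Sum.elim y z)) ≠ 0 →
      x = y ∧ y = z) :
    (B.card : ℝ) ≤ 3 * ((p : ℝ) ^ n * Real.exp (-(n / 18) + 2 * g / (9 * ((p : ℝ) - 1)))) := by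
  classical
  have hp2 := (Fact.out : p.Prime).two_le
  have hp : (2 : ℝ) ≤ p := by exact_mod_cast hp2
  have hp1 : (0 : ℝ) < (p : ℝ) - 1 := by linarith
  set δ : (Fin n ⊕ Fin n ⊕ Fin n → ZMod p) → ZMod p := ∏ e : Fin n, (fun v =>
    1 - (v (Sum.inl e) - v (Sum.inr (Sum.inl e)) - v (Sum.inr (Sum.inl e)) +
      v (Sum.inr (Sum.inr e))) ^ (p - 1)) with hδ
  have hδm : δ ∈ Pol p (Fin n ⊕ Fin n ⊕ Fin n) (∑ _e : Fin n, (p - 1)) := by
    refine prod_mem_Pol univ _ _ fun e _ => ?_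
    have a1 : (fun v : Fin n ⊕ Fin n ⊕ Fin n → ZMod p => v (Sum.inl e) - v (Sum.inr (Sum.inl e)) -
        v (Sum.inr (Sum.inl e)) + v (Sum.inr (Sum.inr e))) ∈ Pol p (Fin n ⊕ Fin n ⊕ Fin n) 1 :=
      Submodule.add_mem _ (Submodule.sub_mem _ (Submodule.sub_mem _ (coord_mem_Pol _)
        (coord_mem_Pol _)) (coord_mem_Pol _)) (coord_mem_Pol _)
    have a2 := pow_mem_Pol a1 (p - 1)
    rw [mul_one] at a2
    exact Submodule.sub_mem _ (one_mem_Pol _) a2
  have hδe : ∀ x y z : Fin n → ZMod p, δ (Sum.elim x (Sum.elim y z)) =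
      if x - y - y + z = 0 then 1 else 0 := by
    intro x y z
    rw [← delta (x - y - y + z), hδ, Finset.prod_apply]
    rfl
  obtain ⟨f₁, f₂, f₃, hf, a₁, a₂, a₃⟩ := split3 (mul_mem_Pol hδm hG)
  set E := (∑ _e : Fin n, (p - 1) + g) / 3 with hE
  set ρ : ((Fin n → ZMod p) → ZMod p) →ₗ[ZMod p] (B → ZMod p) :=
    LinearMap.funLeft (ZMod p) (ZMod p) (fun b : B => (b : Fin n → ZMod p)) with hρ
  set L := (Pol p (Fin n) E).map ρ with hL
  have hd := diag_bound (F := ZMod p) (I := B) (fun i j l => f₁ i j l) (fun i j l => f₂ i j l)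
    (fun i j l => f₃ i j l) L L L (fun j l => ⟨_, a₁ j l, rfl⟩) (fun j l => ⟨_, a₂ j l, rfl⟩)
    (fun j l => ⟨_, a₃ j l, rfl⟩) (by
      intro i j l
      have e1 := hf (i : Fin n → ZMod p) j l
      rw [e1, Pi.mul_apply, hδe]
      by_cases hijl : i = j ∧ j = l
      · obtain ⟨rfl, rfl⟩ := hijl
        rw [if_pos (by simp), if_pos ⟨rfl, rfl⟩, h1 i i.2, mul_one]
      · rw [if_neg hijl]
        by_cases h0 : (i : Fin n → ZMod p) - j - j + l = 0
        · rw [if_pos h0, one_mul]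
          by_contra hne
          apply hijl
          have h3 := h2 i i.2 j j.2 l l.2 (by
            have : (i : Fin n → ZMod p) + l = ((i : Fin n → ZMod p) - j - j + l) + (j + j) := by
              abel
            rw [this, h0, zero_add]) hne
          exact ⟨Subtype.ext h3.1, Subtype.ext h3.2⟩
        · rw [if_neg h0, zero_mul])
  have hLd : finrank (ZMod p) L ≤ finrank (ZMod p) (Pol p (Fin n) E) := Submodule.finrank_map_le _ _
  have hle := finrank_Pol_le (p := p) n E
  rw [Fintype.card_coe] at hd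
  have h5 : (B.card : ℝ) ≤ 3 * (finrank (ZMod p) (Pol p (Fin n) E) : ℝ) := by
    have : B.card ≤ 3 * finrank (ZMod p) (Pol p (Fin n) E) := by omega
    exact_mod_cast this
  refine h5.trans (mul_le_mul_of_nonneg_left (hle.trans ?_) (by norm_num))
  refine mul_le_mul_of_nonneg_left (Real.exp_le_exp.2 ?_) (by positivity)
  have hEr : (E : ℝ) ≤ (n * ((p : ℝ) - 1) + g) / 3 := by
    have h6 : (E : ℝ) ≤ ((∑ _e : Fin n, (p - 1) + g : ℕ) : ℝ) / 3 := Nat.cast_div_le
    refine h6.trans (le_of_eq ?_)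
    simp only [sum_const, card_univ, Fintype.card_fin, smul_eq_mul]
    push_cast
    rw [Nat.cast_sub (by omega)]
    simp
  have h7 : 2 * (E : ℝ) / (3 * ((p : ℝ) - 1)) ≤
      2 * ((n * ((p : ℝ) - 1) + g) / 3) / (3 * ((p : ℝ) - 1)) := by
    gcongr
  have h8 : 2 * ((n * ((p : ℝ) - 1) + g) / 3) / (3 * ((p : ℝ) - 1)) =
      2 / 9 * n + 2 * g / (9 * ((p : ℝ) - 1)) := by
    field_simp
    ring
  linarith

end Pool.Agent.K6.H42.LR
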