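import Mathlib
import Pool.Agent.K6.H42.LR.EG

/-!
# Sets without lines defined by quadratic equations and few further polynomial conditions
-/

set_option autoImplicit false

namespace Pool.Agent.K6.H42.LR

open Finset Module Pool.Agent.TH360.RS

variable {p : ℕ} [Fact p.Prime]

variable (p) in
/-- The set contains no line. -/
def LineFree {V : Type*} [AddCommGroup V] [Module (ZMod p) V] (A : Set V) : Prop :=
  ∀ x y : V, (∀ t : ZMod p, x + t • y ∈ A) → y = 0

theorem LineFree.mono {V : Type*} [AddCommGroup V] [Module (ZMod p) V] {A B : Set V}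
    (h : LineFree p B) (hAB : A ⊆ B) : LineFree p A :=
  fun x y hxy => h x y fun t => hAB (hxy t)

/-- the points of `R` in the coset of `W` at `x₁` -/
def Sec {V : Type*} [AddCommGroup V] [Module (ZMod p) V] (R : Set V) (W : Submodule (ZMod p) V)
    (x₁ : V) : Set V :=
  {x | x ∈ R ∧ x - x₁ ∈ W}

variable {n m d : ℕ}

/-- the point `u + t (w - u)` of the line through the first two of three points -/
def lin (N : ℕ) (t : ZMod p) : (Fin N ⊕ Fin N ⊕ Fin N → ZMod p) →ₗ[ZMod p] (Fin N → ZMod p) where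
  toFun v := fun e => v (Sum.inl e) + t * (v (Sum.inr (Sum.inl e)) - v (Sum.inl e))
  map_add' v w := by
    funext e
    simp only [Pi.add_apply]
    ring
  map_smul' c v := by
    funext e
    simp only [Pi.smul_apply, smul_eq_mul, RingHom.id_apply]
    ring

theorem lin_elim (N : ℕ) (t : ZMod p) (u w z : Fin N → ZMod p) :
    lin N t (Sum.elim u (Sum.elim w z)) = u + t • (w - u) := by
  funext e
  simp [lin]

theorem base (hp : 3 ≤ p) (𝒬 : Set ((Fin n → ZMod p) → ZMod p))
    (h𝒬 : ∀ Q ∈ 𝒬, Q ∈ Pol p (Fin n) 2) (P : Fin m → (Fin n → ZMod p) → ZMod p)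
    (hP : ∀ l, P l ∈ Pol p (Fin n) d) (b : Fin m → ZMod p)
    (W : Submodule (ZMod p) (Fin n → ZMod p)) (x₁ : Fin n → ZMod p)
    (hfree : LineFree p (Sec {x | (∀ Q ∈ 𝒬, Q x = 0) ∧ ∀ l, P l x = b l} W x₁)) :
    (Nat.card (Sec {x | (∀ Q ∈ 𝒬, Q x = 0) ∧ ∀ l, P l x = b l} W x₁) : ℝ) ≤
      3 * ((p : ℝ) ^ finrank (ZMod p) W *
        Real.exp (-((finrank (ZMod p) W : ℝ) / 18) + 2 * (m * p * d) / 9)) := by
  classical
  set R : Set (Fin n → ZMod p) := {x | (∀ Q ∈ 𝒬, Q x = 0) ∧ ∀ l, P l x = b l} with hR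
  set N := finrank (ZMod p) W with hN
  have hp1 : (0 : ℝ) < (p : ℝ) - 1 := by
    have : (3 : ℝ) ≤ p := by exact_mod_cast hp
    linarith
  let φ : (Fin N → ZMod p) ≃ₗ[ZMod p] W := LinearEquiv.ofFinrankEq _ _ (by simp [hN])
  set X : (Fin N → ZMod p) → (Fin n → ZMod p) := fun u => x₁ + (φ u : Fin n → ZMod p) with hX
  set B : Finset (Fin N → ZMod p) := univ.filter (fun u => X u ∈ R) with hB
  have hcard : Nat.card (Sec R W x₁) = B.card := by
    rw [show B.card = Nat.card {u // u ∈ B} by rw [Nat.card_eq_fintype_card, Fintype.card_coe]]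
    symm
    refine Nat.card_congr ⟨fun u => ⟨X u, ?_, ?_⟩, fun x => ⟨φ.symm ⟨x - x₁, x.2.2⟩, ?_⟩, ?_, ?_⟩
    · exact (mem_filter.1 u.2).2
    · simp [hX]
    · rw [hB, mem_filter]
      refine ⟨mem_univ _, ?_⟩
      have : X (φ.symm ⟨x - x₁, x.2.2⟩) = x := by simp [hX]
      rw [this]
      exact x.2.1
    · intro u
      apply Subtype.ext
      simp [hX]
    · intro x
      apply Subtype.ext
      simp [hX]
  set G : (Fin N ⊕ Fin N ⊕ Fin N → ZMod p) → ZMod p := ∏ l : Fin m, ∏ t : ZMod p, (fun v =>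
    1 - (P l (X (lin N t v)) - b l) ^ (p - 1)) with hG
  have hGm : G ∈ Pol p (Fin N ⊕ Fin N ⊕ Fin N) (∑ _l : Fin m, ∑ _t : ZMod p, (p - 1) * d) := by
    refine prod_mem_Pol univ _ _ fun l _ => prod_mem_Pol univ _ _ fun t _ => ?_
    have a1 : (fun v : Fin N ⊕ Fin N ⊕ Fin N → ZMod p => P l (X (lin N t v)))
        ∈ Pol p (Fin N ⊕ Fin N ⊕ Fin N) d := by
      refine comp_mem_Pol (hP l) (fun v => X (lin N t v)) fun e => ?_
      let ψ : (Fin N ⊕ Fin N ⊕ Fin N → ZMod p) →ₗ[ZMod p] ZMod p :=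
        (LinearMap.proj e).comp ((W.subtype.comp φ.toLinearMap).comp (lin N t))
      have h2 := linear_mem_Pol ψ
      have h1 : (fun v : Fin N ⊕ Fin N ⊕ Fin N → ZMod p => X (lin N t v) e) =
          x₁ e • (1 : (Fin N ⊕ Fin N ⊕ Fin N → ZMod p) → ZMod p) + fun v => ψ v := by
        funext v
        simp [hX, ψ]
      rw [h1]
      exact Submodule.add_mem _ (Submodule.smul_mem _ _ (one_mem_Pol 1)) h2
    have a2 : (fun v : Fin N ⊕ Fin N ⊕ Fin N → ZMod p => P l (X (lin N t v)) - b l)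
        ∈ Pol p (Fin N ⊕ Fin N ⊕ Fin N) d := by
      have : (fun v : Fin N ⊕ Fin N ⊕ Fin N → ZMod p => P l (X (lin N t v)) - b l) =
          (fun v => P l (X (lin N t v))) - b l • 1 := by
        funext v
        simp
      rw [this]
      exact Submodule.sub_mem _ a1 (Submodule.smul_mem _ _ (one_mem_Pol d))
    have a3 := pow_mem_Pol a2 (p - 1)
    exact Submodule.sub_mem _ (one_mem_Pol _) a3
  have hGe : ∀ u w z : Fin N → ZMod p, G (Sum.elim u (Sum.elim w z)) =
      ∏ l : Fin m, ∏ t : ZMod p, (1 - (P l (X (u + t • (w - u))) - b l) ^ (p - 1)) := by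
    intro u w z
    rw [hG, Finset.prod_apply]
    refine prod_congr rfl fun l _ => ?_
    rw [Finset.prod_apply]
    refine prod_congr rfl fun t _ => ?_
    rw [lin_elim]
  have hmain := eg N _ B G hGm (by
      intro u hu
      rw [hB, mem_filter] at hu
      rw [hGe]
      refine prod_eq_one fun l _ => prod_eq_one fun t _ => ?_
      rw [sub_self, smul_zero, add_zero, hu.2.2 l, sub_self, zero_pow (by omega), sub_zero]) (by
      intro u hu w hw z hz huz hne
      rw [hB, mem_filter] at hu hw hz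
      rw [hGe] at hne
      have hPl : ∀ (l : Fin m) (t : ZMod p), P l (X (u + t • (w - u))) = b l := by
        intro l t
        have h1 := prod_ne_zero_iff.1 (prod_ne_zero_iff.1 hne l (mem_univ l)) t (mem_univ t)
        by_contra h2
        apply h1
        rw [ZMod.pow_card_sub_one_eq_one (sub_ne_zero.2 h2), sub_self]
      have hXl : ∀ t : ZMod p, X (u + t • (w - u)) = X u + t • (φ (w - u) : Fin n → ZMod p) := by
        intro t
        simp only [hX, map_add, map_smul, Submodule.coe_add, Submodule.coe_smul]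
        abel
      have hy := hfree (X u) (φ (w - u) : Fin n → ZMod p) (by
        intro t
        refine ⟨⟨fun Q hQ => ?_, fun l => ?_⟩, ?_⟩
        · refine quad_line hp (h𝒬 Q hQ) (hu.2.1 Q hQ) ?_ ?_ t
          · have := hXl 1
            rw [one_smul, one_smul, add_sub_cancel] at this
            rw [← this]
            exact hw.2.1 Q hQ
          · rw [← hXl 2]
            have : u + (2 : ZMod p) • (w - u) = z := by
              have h3 : z = w + w - u := by rw [← huz]; abel
              rw [h3, two_smul]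
              abel
            rw [this]
            exact hz.2.1 Q hQ
        · rw [← hXl]
          exact hPl l t
        · simp only [hX]
          have : x₁ + (φ u : Fin n → ZMod p) + t • (φ (w - u) : Fin n → ZMod p) - x₁ =
              ((φ u + t • φ (w - u) : W) : Fin n → ZMod p) := by
            simp only [Submodule.coe_add, Submodule.coe_smul]
            abel
          rw [this]
          exact Subtype.coe_prop _)
      have hwu : w = u := by
        have h3 : φ (w - u) = 0 := Subtype.ext hy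
        have h4 := φ.map_eq_zero_iff.1 h3
        exact sub_eq_zero.1 h4
      refine ⟨hwu.symm, ?_⟩
      have h3 : z = w + w - u := by rw [← huz]; abel
      rw [h3, hwu]
      abel)
  rw [hcard]
  refine hmain.trans (le_of_eq ?_)
  congr 3
  have : ((∑ _l : Fin m, ∑ _t : ZMod p, (p - 1) * d : ℕ) : ℝ) = m * p * (((p : ℝ) - 1) * d) := by
    simp only [sum_const, card_univ, Fintype.card_fin, ZMod.card, smul_eq_mul]
    push_cast
    rw [Nat.cast_sub (by omega)]
    push_cast
    ring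
  rw [this]
  field_simp

/-- the set defined by a family of polynomial equations and `m` conditions on polynomials -/
def PolySet (𝒬 : Set ((Fin n → ZMod p) → ZMod p)) (P : Fin m → (Fin n → ZMod p) → ZMod p)
    (C : Fin m → Set (ZMod p)) : Set (Fin n → ZMod p) :=
  {x | (∀ Q ∈ 𝒬, Q x = 0) ∧ ∀ l, P l x ∈ C l}

theorem base' (hp : 3 ≤ p) (𝒬 : Set ((Fin n → ZMod p) → ZMod p))
    (h𝒬 : ∀ Q ∈ 𝒬, Q ∈ Pol p (Fin n) 2) (P : Fin m → (Fin n → ZMod p) → ZMod p)
    (hP : ∀ l, P l ∈ Pol p (Fin n) d) (C : Fin m → Set (ZMod p))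
    (W : Submodule (ZMod p) (Fin n → ZMod p)) (x₁ : Fin n → ZMod p)
    (hfree : LineFree p (Sec (PolySet 𝒬 P C) W x₁)) :
    (Nat.card (Sec (PolySet 𝒬 P C) W x₁) : ℝ) ≤
      (p : ℝ) ^ finrank (ZMod p) W *
        (3 * Real.exp (-((finrank (ZMod p) W : ℝ) / 18) + m * p * (d + 1))) := by
  classical
  have hp3 : (3 : ℝ) ≤ p := by exact_mod_cast hp
  set S : (Fin m → ZMod p) → Set (Fin n → ZMod p) := fun b =>
    Sec {x | (∀ Q ∈ 𝒬, Q x = 0) ∧ ∀ l, P l x = b l} W x₁ with hS
  have h1 : Nat.card (Sec (PolySet 𝒬 P C) W x₁) ≤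
      ∑ b ∈ univ.filter (fun b : Fin m → ZMod p => ∀ l, b l ∈ C l), Nat.card (S b) := by
    have hfin : ∀ b, Nat.card (S b) = ((univ : Finset (Fin n → ZMod p)).filter
        (fun x => x ∈ S b)).card := by
      intro b
      rw [Nat.card_eq_fintype_card, Fintype.card_subtype]
    have hfin' : Nat.card (Sec (PolySet 𝒬 P C) W x₁) =
        ((univ : Finset (Fin n → ZMod p)).filter
          (fun x => x ∈ Sec (PolySet 𝒬 P C) W x₁)).card := by
      rw [Nat.card_eq_fintype_card, Fintype.card_subtype]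
    rw [hfin']
    simp_rw [hfin]
    refine (card_le_card ?_).trans card_biUnion_le
    intro x hx
    rw [mem_filter] at hx
    rw [mem_biUnion]
    refine ⟨fun l => P l x, ?_, ?_⟩
    · rw [mem_filter]
      exact ⟨mem_univ _, hx.2.1.2⟩
    · rw [mem_filter]
      exact ⟨mem_univ _, ⟨hx.2.1.1, fun l => rfl⟩, hx.2.2⟩
  have h2 : ∀ b ∈ univ.filter (fun b : Fin m → ZMod p => ∀ l, b l ∈ C l),
      (Nat.card (S b) : ℝ) ≤ 3 * ((p : ℝ) ^ finrank (ZMod p) W *
        Real.exp (-((finrank (ZMod p) W : ℝ) / 18) + 2 * (m * p * d) / 9)) := by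
    intro b hb
    rw [mem_filter] at hb
    refine base hp 𝒬 h𝒬 P hP b W x₁ (hfree.mono ?_)
    rintro x ⟨⟨hx1, hx2⟩, hx3⟩
    refine ⟨⟨hx1, fun l => ?_⟩, hx3⟩
    rw [hx2 l]
    exact hb.2 l
  have h3 : (Nat.card (Sec (PolySet 𝒬 P C) W x₁) : ℝ) ≤ (p : ℝ) ^ m *
      (3 * ((p : ℝ) ^ finrank (ZMod p) W *
        Real.exp (-((finrank (ZMod p) W : ℝ) / 18) + 2 * (m * p * d) / 9))) := by
    have h4 : (Nat.card (Sec (PolySet 𝒬 P C) W x₁) : ℝ) ≤
        ∑ b ∈ univ.filter (fun b : Fin m → ZMod p => ∀ l, b l ∈ C l), (Nat.card (S b) : ℝ) := by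
      exact_mod_cast h1
    refine h4.trans ((sum_le_sum h2).trans ?_)
    rw [sum_const, nsmul_eq_mul]
    refine mul_le_mul_of_nonneg_right ?_ (by positivity)
    have h5 : (univ.filter (fun b : Fin m → ZMod p => ∀ l, b l ∈ C l)).card ≤ p ^ m := by
      refine (card_le_univ _).trans ?_
      simp [ZMod.card]
    exact_mod_cast h5
  refine h3.trans ?_
  have h6 : (p : ℝ) ^ m ≤ Real.exp (m * p) := by
    have : (p : ℝ) ≤ Real.exp p := by
      have := Real.add_one_le_exp (p : ℝ)
      linarith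
    calc (p : ℝ) ^ m ≤ (Real.exp p) ^ m := pow_le_pow_left₀ (by positivity) this m
      _ = Real.exp (m * p) := by rw [← Real.exp_nat_mul]
  calc (p : ℝ) ^ m * (3 * ((p : ℝ) ^ finrank (ZMod p) W *
        Real.exp (-((finrank (ZMod p) W : ℝ) / 18) + 2 * (m * p * d) / 9)))
      ≤ Real.exp (m * p) * (3 * ((p : ℝ) ^ finrank (ZMod p) W *
        Real.exp (-((finrank (ZMod p) W : ℝ) / 18) + 2 * (m * p * d) / 9))) := by
        gcongr
    _ = (p : ℝ) ^ finrank (ZMod p) W * (3 * Real.exp (m * p +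
        (-((finrank (ZMod p) W : ℝ) / 18) + 2 * (m * p * d) / 9))) := by
        rw [Real.exp_add ((m : ℝ) * p) _]
        ring
    _ ≤ _ := by
        refine mul_le_mul_of_nonneg_left (mul_le_mul_of_nonneg_left (Real.exp_le_exp.2 ?_)
          (by norm_num)) (by positivity)
        have h7 : (0 : ℝ) ≤ m * p * d := by positivity
        have h8 : (m : ℝ) * p * (d + 1) = m * p * d + m * p := by ring
        rw [h8]
        linarith

end Pool.Agent.K6.H42.LR
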