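import Mathlib
import Pool.Agent.K6.H42.LR.Base

/-!
# Intersections of sets which are unions of cosets of subspaces of small codimension
-/

set_option autoImplicit false

namespace Pool.Agent.K6.H42.LR

open Finset Module

variable {p : ℕ} [Fact p.Prime] {V : Type*} [AddCommGroup V] [Module (ZMod p) V] [Finite V]

theorem card_sub (W : Submodule (ZMod p) V) : Nat.card W = p ^ finrank (ZMod p) W := by
  rw [Module.natCard_eq_pow_finrank (K := ZMod p), Nat.card_zmod]

omit [Finite V] in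
/-- two events which are invariant under subspaces with sum `W` are independent on a coset of `W` -/
theorem indep (W K L : Submodule (ZMod p) V) (hKL : K ⊔ L = W) (x₁ : V)
    (X Y : Set V) (hX : ∀ x ∈ X, x - x₁ ∈ W) (hY : ∀ x ∈ Y, x - x₁ ∈ W)
    (hXK : ∀ x y, y - x ∈ K → (x ∈ X ↔ y ∈ X)) (hYL : ∀ x y, y - x ∈ L → (x ∈ Y ↔ y ∈ Y)) :
    Nat.card X * Nat.card Y = Nat.card (X ∩ Y : Set V) * Nat.card W := by
  have ha : ∀ w : V, ∃ a : V, w ∈ W → a ∈ K ∧ w - a ∈ L := by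
    intro w
    by_cases hw : w ∈ W
    · rw [← hKL, Submodule.mem_sup] at hw
      obtain ⟨y, hy, z, hz, rfl⟩ := hw
      exact ⟨y, fun _ => ⟨hy, by simpa using hz⟩⟩
    · exact ⟨0, fun h => absurd h hw⟩
  choose a ha using ha
  rw [← Nat.card_prod, ← Nat.card_prod]
  have hdiff : ∀ x ∈ X, ∀ y ∈ Y, y - x ∈ W := by
    intro x hx y hy
    have := W.sub_mem (hY y hy) (hX x hx)
    rwa [sub_sub_sub_cancel_right] at this
  refine Nat.card_congr ⟨fun q => (⟨q.1 + a (q.2 - q.1), ?_, ?_⟩, ⟨q.2 - q.1,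
    hdiff _ q.1.2 _ q.2.2⟩), fun q => (⟨(q.1 : V) - a q.2, ?_⟩, ⟨(q.1 : V) - a q.2 + q.2, ?_⟩),
    ?_, ?_⟩
  · have h1 := (ha ((q.2 : V) - q.1) (hdiff _ q.1.2 _ q.2.2)).1
    exact (hXK (q.1 : V) _ (by simpa using h1)).1 q.1.2
  · have h1 := (ha ((q.2 : V) - q.1) (hdiff _ q.1.2 _ q.2.2)).2
    refine (hYL _ (q.2 : V) ?_).2 q.2.2
    have : (q.2 : V) - (q.1 + a (q.2 - q.1)) = (q.2 : V) - q.1 - a (q.2 - q.1) := by abel
    rw [this]
    exact h1
  · have h1 := (ha (q.2 : V) q.2.2).1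
    refine (hXK _ (q.1 : V) ?_).2 q.1.2.1
    simpa using h1
  · have h1 := (ha (q.2 : V) q.2.2).2
    refine (hYL (q.1 : V) _ ?_).1 q.1.2.2
    have : (q.1 : V) - a q.2 + q.2 - q.1 = (q.2 : V) - a q.2 := by abel
    rw [this]
    exact h1
  · intro q
    refine Prod.ext (Subtype.ext ?_) (Subtype.ext ?_)
    · simp
    · simp
  · intro q
    have h2 : (q.1 : V) - a q.2 + q.2 - ((q.1 : V) - a q.2) = q.2 := by abel
    refine Prod.ext (Subtype.ext ?_) (Subtype.ext ?_)
    · change (q.1 : V) - a q.2 + a ((q.1 : V) - a q.2 + q.2 - ((q.1 : V) - a q.2)) = q.1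
      rw [h2]
      abel
    · exact h2

universe u

theorem greedy {ι : Type u} (W : Submodule (ZMod p) V) (x₁ : V) (j : ℕ) (S : ι → Set V)
    (K : ι → Submodule (ZMod p) V) (hK : ∀ i, K i ≤ W)
    (hcod : ∀ i, finrank (ZMod p) W ≤ finrank (ZMod p) (K i) + j)
    (hinv : ∀ i x y, x - x₁ ∈ W → y - x ∈ K i → (x ∈ S i ↔ y ∈ S i)) (η : ℝ) (hη : η ≤ 1)
    (hden : ∀ i, (Nat.card {x | x ∈ S i ∧ x - x₁ ∈ W} : ℝ) ≤ (1 - η) * Nat.card W) (s : ℕ) :
    ∃ (K' : Submodule (ZMod p) V) (X : Set V), K' ≤ W ∧ (∀ x ∈ X, x - x₁ ∈ W) ∧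
      (∀ x y, y - x ∈ K' → (x ∈ X ↔ y ∈ X)) ∧
      (∀ x, x - x₁ ∈ W → (∀ i, x ∈ S i) → x ∈ X) ∧
      finrank (ZMod p) W ≤ finrank (ZMod p) K' + j * s ∧
      ((Nat.card X : ℝ) ≤ (1 - η) ^ s * Nat.card W ∨ ∀ i, K' ⊔ K i ≠ W) := by
  have hq : (0 : ℝ) ≤ 1 - η := by linarith
  have hWpos : (0 : ℝ) < Nat.card W := by exact_mod_cast Nat.card_pos
  induction s with
  | zero =>
    refine ⟨W, {x | x - x₁ ∈ W}, le_rfl, fun x hx => hx, fun x y hxy => ?_, fun x hx _ => hx,
      by simp, Or.inl ?_⟩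
    · constructor
      · intro hx
        have := W.add_mem hxy hx
        rwa [sub_add_sub_cancel] at this
      · intro hy
        have := W.sub_mem hy hxy
        rwa [sub_sub_sub_cancel_left] at this
    · rw [pow_zero, one_mul]
      refine le_of_eq ?_
      congr 1
      refine Nat.card_congr ⟨fun x => ⟨x - x₁, x.2⟩, fun w => ⟨w + x₁, by simp⟩, ?_, ?_⟩
      · intro x; simp
      · intro w; simp
  | succ s ih =>
    obtain ⟨K', X, h1, h2, h3, h4, h5, h6⟩ := ih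
    by_cases hstop : ∀ i, K' ⊔ K i ≠ W
    · exact ⟨K', X, h1, h2, h3, h4, h5.trans (by gcongr; omega), Or.inr hstop⟩
    push Not at hstop
    obtain ⟨i, hi⟩ := hstop
    have h7 : (Nat.card X : ℝ) ≤ (1 - η) ^ s * Nat.card W := by
      rcases h6 with h6 | h6
      · exact h6
      · exact absurd hi (h6 i)
    set Y : Set V := {x | x ∈ S i ∧ x - x₁ ∈ W} with hY
    have hYinv : ∀ x y, y - x ∈ K i → (x ∈ Y ↔ y ∈ Y) := by
      intro x y hxy
      constructor
      · rintro ⟨a, b⟩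
        refine ⟨(hinv i x y b hxy).1 a, ?_⟩
        have := W.add_mem (hK i hxy) b
        rwa [sub_add_sub_cancel] at this
      · rintro ⟨a, b⟩
        have hb : x - x₁ ∈ W := by
          have := W.sub_mem b (hK i hxy)
          rwa [sub_sub_sub_cancel_left] at this
        exact ⟨(hinv i x y hb hxy).2 a, hb⟩
    have hprod := indep W K' (K i) hi x₁ X Y h2 (fun x hx => hx.2) h3 hYinv
    have hYc := hden i
    rw [← hY] at hYc
    refine ⟨K' ⊓ K i, X ∩ Y, inf_le_left.trans h1, fun x hx => h2 x hx.1, fun x y hxy => ?_,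
      fun x hx hxS => ⟨h4 x hx hxS, hxS i, hx⟩, ?_, Or.inl ?_⟩
    · rw [Submodule.mem_inf] at hxy
      exact and_congr (h3 x y hxy.1) (hYinv x y hxy.2)
    · have e1 := Submodule.finrank_sup_add_finrank_inf_eq K' (K i)
      rw [hi] at e1
      have e2 := hcod i
      have e3 : j * (s + 1) = j * s + j := by ring
      omega
    · have e1 : (Nat.card X : ℝ) * Nat.card Y = Nat.card (X ∩ Y : Set V) * Nat.card W := by
        exact_mod_cast hprod
      have e2 : (Nat.card (X ∩ Y : Set V) : ℝ) * Nat.card W ≤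
          ((1 - η) ^ (s + 1) * Nat.card W) * Nat.card W := by
        rw [← e1]
        calc (Nat.card X : ℝ) * Nat.card Y
            ≤ ((1 - η) ^ s * Nat.card W) * ((1 - η) * Nat.card W) := by
              gcongr
          _ = _ := by ring
      exact le_of_mul_le_mul_right e2 hWpos

/-- the dimension lost -/
def cost (s j : ℕ) : ℕ := s * ∑ i ∈ range (j + 1), i

theorem cost_succ (s j : ℕ) : cost s (j + 1) = cost s j + (j + 1) * s := by
  unfold cost
  rw [sum_range_succ _ (j + 1)]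
  ring

theorem two_mul_cost (s j : ℕ) : 2 * cost s j = s * (j * (j + 1)) := by
  induction j with
  | zero => simp [cost]
  | succ j ih =>
    rw [cost_succ, mul_add, ih]
    ring

/-- averaging over cosets -/
theorem average (W K' : Submodule (ZMod p) V) (hK' : K' ≤ W) (x₁ : V) (A : Set V)
    (hA : ∀ x ∈ A, x - x₁ ∈ W) (B : ℝ)
    (h : ∀ x₂, x₂ - x₁ ∈ W → (Nat.card {x // x ∈ A ∧ x - x₂ ∈ K'} : ℝ) ≤
      (p : ℝ) ^ finrank (ZMod p) K' * B) :
    (Nat.card A : ℝ) ≤ (p : ℝ) ^ finrank (ZMod p) W * B := by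
  classical
  have hp0 : (0 : ℝ) < p := by exact_mod_cast (Fact.out : p.Prime).pos
  cases nonempty_fintype V
  set C : Finset V := univ.filter (fun x => x - x₁ ∈ W) with hC
  set A' : Finset V := univ.filter (fun x => x ∈ A) with hA'
  have hCc : C.card = p ^ finrank (ZMod p) W := by
    rw [← card_sub W, ← Fintype.card_subtype, ← Nat.card_eq_fintype_card]
    refine Nat.card_congr ⟨fun x => ⟨x - x₁, x.2⟩, fun w => ⟨w + x₁, by simp⟩, ?_, ?_⟩
    · intro x; simp
    · intro w; simp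
  have hAc : Nat.card A = A'.card := by
    rw [Nat.card_eq_fintype_card, hA', ← Fintype.card_subtype]
  have h1 : ∑ x₂ ∈ C, (A'.filter (fun x => x - x₂ ∈ K')).card =
      ∑ x ∈ A', (C.filter (fun x₂ => x - x₂ ∈ K')).card := by
    simp_rw [card_filter]
    rw [sum_comm]
  have h2 : ∀ x ∈ A', (C.filter (fun x₂ => x - x₂ ∈ K')).card = p ^ finrank (ZMod p) K' := by
    intro x hx
    rw [hA', mem_filter] at hx
    rw [hC, filter_filter, ← card_sub K', ← Fintype.card_subtype, ← Nat.card_eq_fintype_card]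
    refine Nat.card_congr ⟨fun y => ⟨x - y, y.2.2⟩, fun k => ⟨x - k, ?_, by simp⟩, ?_, ?_⟩
    · have := W.sub_mem (hA x hx.2) (hK' k.2)
      rwa [sub_right_comm] at this
    · intro y; simp
    · intro k; simp
  rw [sum_congr rfl h2, sum_const, smul_eq_mul] at h1
  have h3 : ∀ x₂ ∈ C, ((A'.filter (fun x => x - x₂ ∈ K')).card : ℝ) ≤
      (p : ℝ) ^ finrank (ZMod p) K' * B := by
    intro x₂ hx₂
    rw [hC, mem_filter] at hx₂
    refine le_trans (le_of_eq ?_) (h x₂ hx₂.2)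
    rw [hA', filter_filter, ← Fintype.card_subtype, ← Nat.card_eq_fintype_card]
  have h4 : (A'.card : ℝ) * (p : ℝ) ^ finrank (ZMod p) K' ≤
      (p : ℝ) ^ finrank (ZMod p) W * ((p : ℝ) ^ finrank (ZMod p) K' * B) := by
    have : ((A'.card * p ^ finrank (ZMod p) K' : ℕ) : ℝ) =
        ∑ x₂ ∈ C, ((A'.filter (fun x => x - x₂ ∈ K')).card : ℝ) := by
      rw [← h1]
      push_cast
      rfl
    push_cast at this
    rw [this]
    refine (sum_le_sum h3).trans ?_
    rw [sum_const, hCc, nsmul_eq_mul]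
    push_cast
    exact le_rfl
  rw [hAc]
  have h5 : (0 : ℝ) < (p : ℝ) ^ finrank (ZMod p) K' := by positivity
  have h6 : (A'.card : ℝ) * (p : ℝ) ^ finrank (ZMod p) K' ≤
      ((p : ℝ) ^ finrank (ZMod p) W * B) * (p : ℝ) ^ finrank (ZMod p) K' := by
    refine h4.trans (le_of_eq ?_)
    ring
  exact le_of_mul_le_mul_right h6 h5

theorem main_ind (R : Set V) (L : ℕ) (β : ℝ)
    (hgood : ∀ (W : Submodule (ZMod p) V) (x₁ : V), L ≤ finrank (ZMod p) W →
      LineFree p (Sec R W x₁) →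
      (Nat.card (Sec R W x₁) : ℝ) ≤ (p : ℝ) ^ finrank (ZMod p) W * β)
    (s : ℕ) (B : ℝ) (hB : β ≤ B) (η : ℝ) (hη : η ≤ 1)
    (hr : (1 - η) ^ s ≤ B) (hB0 : 0 ≤ B)
    (j : ℕ) : ∀ (ι : Type u) (W : Submodule (ZMod p) V) (x₁ : V) (S : ι → Set V)
    (K : ι → Submodule (ZMod p) V), (∀ i, K i ≤ W) →
    (∀ i, finrank (ZMod p) W ≤ finrank (ZMod p) (K i) + j) →
    (∀ i x y, x - x₁ ∈ W → y - x ∈ K i → (x ∈ S i ↔ y ∈ S i)) →
    (∀ i (W' : Submodule (ZMod p) V) (x₂ : V), (∃ x, x - x₂ ∈ W' ∧ x ∉ S i) →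
      (Nat.card {x | x ∈ S i ∧ x - x₂ ∈ W'} : ℝ) ≤ (1 - η) * Nat.card W') →
    L + cost s j ≤ finrank (ZMod p) W →
    LineFree p {x | (x ∈ R ∧ ∀ i, x ∈ S i) ∧ x - x₁ ∈ W} →
    (Nat.card {x | (x ∈ R ∧ ∀ i, x ∈ S i) ∧ x - x₁ ∈ W} : ℝ) ≤
      (p : ℝ) ^ finrank (ZMod p) W * B := by
  have hp0 : (0 : ℝ) < p := by exact_mod_cast (Fact.out : p.Prime).pos
  induction j with
  | zero =>
    intro ι W x₁ S K hK hcod hinv hden hdim hfree
    by_cases hmiss : ∃ i x, x - x₁ ∈ W ∧ x ∉ S i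
    · obtain ⟨i, x, hx, hxS⟩ := hmiss
      have hKW : K i = W := Submodule.eq_of_le_of_finrank_le (hK i) (by simpa using hcod i)
      have hempty : {x | (x ∈ R ∧ ∀ i, x ∈ S i) ∧ x - x₁ ∈ W} = (∅ : Set V) := by
        rw [Set.eq_empty_iff_forall_notMem]
        rintro y ⟨⟨_, hyS⟩, hy⟩
        apply hxS
        refine (hinv i y x hy ?_).1 (hyS i)
        rw [hKW]
        have := W.sub_mem hx hy
        rwa [sub_sub_sub_cancel_right] at this
      rw [hempty]
      simp only [Nat.card_of_isEmpty, Nat.cast_zero]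
      positivity
    · push Not at hmiss
      have heq : {x | (x ∈ R ∧ ∀ i, x ∈ S i) ∧ x - x₁ ∈ W} = Sec R W x₁ := by
        ext x
        constructor
        · rintro ⟨⟨a, _⟩, b⟩
          exact ⟨a, b⟩
        · rintro ⟨a, b⟩
          exact ⟨⟨a, fun i => hmiss i x b⟩, b⟩
      rw [heq] at hfree ⊢
      refine (hgood W x₁ (by omega) hfree).trans ?_
      gcongr
  | succ j ih =>
    intro ι W x₁ S K hK hcod hinv hden hdim hfree
    obtain ⟨K', X, h1, h2, h3, h4, h5, h6⟩ := greedy (ι := {i : ι // ∃ x, x - x₁ ∈ W ∧ x ∉ S i})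
      W x₁ (j + 1) (fun i => S i) (fun i => K i) (fun i => hK i) (fun i => hcod i)
      (fun i => hinv i) η hη (fun i => hden i W x₁ i.2) s
    set A : Set V := {x | (x ∈ R ∧ ∀ i, x ∈ S i) ∧ x - x₁ ∈ W} with hA
    rcases h6 with h6 | h6
    · have hsub : A ⊆ X := fun x hx => h4 x hx.2 fun i => hx.1.2 i
      have h7 : (Nat.card A : ℝ) ≤ Nat.card X := by
        exact_mod_cast Nat.card_mono (Set.toFinite X) hsub
      refine h7.trans (h6.trans ?_)
      rw [card_sub W, mul_comm]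
      push_cast
      exact mul_le_mul_of_nonneg_left hr (by positivity)
    · refine average W K' h1 x₁ A (fun x hx => hx.2) B fun x₂ hx₂ => ?_
      have hset : {x | x ∈ A ∧ x - x₂ ∈ K'} =
          {x | (x ∈ R ∧ ∀ i : {i : ι // ∃ x, x - x₁ ∈ W ∧ x ∉ S i}, x ∈ S i) ∧ x - x₂ ∈ K'} := by
        ext x
        constructor
        · rintro ⟨⟨⟨a, b⟩, c⟩, e⟩
          exact ⟨⟨a, fun i => b i⟩, e⟩
        · rintro ⟨⟨a, b⟩, e⟩
          have hx : x - x₁ ∈ W := by
            have := W.add_mem (h1 e) hx₂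
            rwa [sub_add_sub_cancel] at this
          refine ⟨⟨⟨a, fun i => ?_⟩, hx⟩, e⟩
          by_contra hi
          exact hi (b ⟨i, x, hx, hi⟩)
      have h8 := ih {i : ι // ∃ x, x - x₁ ∈ W ∧ x ∉ S i} K' x₂ (fun i => S i)
        (fun i => K' ⊓ K i) (fun i => inf_le_left) (fun i => by
          have e1 := Submodule.finrank_sup_add_finrank_inf_eq K' (K i)
          have e2 : K' ⊔ K i < W := lt_of_le_of_ne (sup_le h1 (hK i)) (h6 i)
          have e3 := Submodule.finrank_lt_finrank_of_lt e2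
          have e4 := hcod i
          omega) (fun i x y hx hxy => by
          refine hinv i x y ?_ (Submodule.mem_inf.1 hxy).2
          have := W.add_mem (h1 hx) hx₂
          rwa [sub_add_sub_cancel] at this) (fun i => hden i) (by
          rw [cost_succ] at hdim
          omega) (by
          rw [← hset]
          exact hfree.mono fun x hx => hx.1)
      rw [← hset] at h8
      exact h8

end Pool.Agent.K6.H42.LR
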