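import Mathlib
import Pool.Agent.K6.H42.LR.Base

/-!
# The number of nonzero values of a polynomial function of given degree
-/

set_option autoImplicit false

namespace Pool.Agent.K6.H42.LR

open Finset Module Pool.Agent.TH360.RS

variable {p : ℕ} [Fact p.Prime]

theorem cons_decomp {N D : ℕ} {f : (Fin (N + 1) → ZMod p) → ZMod p}
    (hf : f ∈ Pol p (Fin (N + 1)) D) :
    ∃ g : Fin p → (Fin N → ZMod p) → ZMod p,
      (∀ (t : ZMod p) (x : Fin N → ZMod p), f (Fin.cons t x) = ∑ j, g j x * t ^ (j : ℕ)) ∧
      (∀ j : Fin p, g j ∈ Pol p (Fin N) (D - (j : ℕ))) ∧ ∀ j : Fin p, D < (j : ℕ) → g j = 0 := by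
  classical
  induction hf using Submodule.span_induction with
  | mem f hf =>
    obtain ⟨m, hm, rfl⟩ := hf
    rw [Fin.sum_univ_succ] at hm
    have hj := red_le (p := p) (m 0)
    refine ⟨fun j => if (j : ℕ) = red p (m 0) then mono (fun e => m e.succ) else 0, ?_, ?_, ?_⟩
    · intro t x
      rw [Finset.sum_eq_single (⟨red p (m 0), red_lt _⟩ : Fin p)]
      · simp only [if_true]
        simp only [mono, Fin.prod_univ_succ, Fin.cons_zero, Fin.cons_succ]
        rw [pow_red, mul_comm]
      · intro j _ hj'
        have hne : (j : ℕ) ≠ red p (m 0) := fun h => hj' (Fin.ext h)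
        simp only [if_neg hne, Pi.zero_apply, zero_mul]
      · intro h
        exact absurd (mem_univ _) h
    · intro j
      dsimp only
      split_ifs with h
      · exact mono_mem_Pol (by omega)
      · exact Submodule.zero_mem _
    · intro j hj'
      dsimp only
      rw [if_neg]
      omega
  | zero =>
    exact ⟨fun _ => 0, fun t x => by simp, fun j => Submodule.zero_mem _, fun j _ => rfl⟩
  | add f f' _ _ h h' =>
    obtain ⟨g, h1, h2, h3⟩ := h
    obtain ⟨g', h1', h2', h3'⟩ := h'
    refine ⟨fun j => g j + g' j, fun t x => ?_, fun j => Submodule.add_mem _ (h2 j) (h2' j),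
      fun j hj => by simp [h3 j hj, h3' j hj]⟩
    rw [Pi.add_apply, h1, h1', ← sum_add_distrib]
    refine sum_congr rfl fun j _ => ?_
    simp only [Pi.add_apply]
    ring
  | smul c f _ h =>
    obtain ⟨g, h1, h2, h3⟩ := h
    refine ⟨fun j => c • g j, fun t x => ?_, fun j => Submodule.smul_mem _ _ (h2 j),
      fun j hj => by simp [h3 j hj]⟩
    rw [Pi.smul_apply, h1, smul_eq_mul, mul_sum]
    refine sum_congr rfl fun j _ => ?_
    simp only [Pi.smul_apply, smul_eq_mul]
    ring

theorem sub_ge_rpow (j : ℕ) (hj : j < p) :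
    (p : ℝ) ^ (1 - (j : ℝ) / ((p : ℝ) - 1)) ≤ (p : ℝ) - j := by
  have hp2 : (2 : ℝ) ≤ p := by exact_mod_cast (Fact.out : p.Prime).two_le
  have hp1 : (0 : ℝ) < (p : ℝ) - 1 := by linarith
  have hj' : (j : ℝ) ≤ (p : ℝ) - 1 := by
    have : (j : ℝ) + 1 ≤ p := by exact_mod_cast hj
    linarith
  have h := Real.geom_mean_le_arith_mean2_weighted (w₁ := 1 - (j : ℝ) / ((p : ℝ) - 1))
    (w₂ := (j : ℝ) / ((p : ℝ) - 1)) (p₁ := p) (p₂ := 1)
    (by rw [sub_nonneg, div_le_one hp1]; exact hj') (by positivity) (by positivity) zero_le_one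
    (by ring)
  rw [Real.one_rpow, mul_one] at h
  refine h.trans (le_of_eq ?_)
  field_simp
  ring

theorem supp_bound (N : ℕ) : ∀ (D : ℕ) (f : (Fin N → ZMod p) → ZMod p), f ∈ Pol p (Fin N) D →
    f ≠ 0 → (p : ℝ) ^ ((N : ℝ) - D / ((p : ℝ) - 1)) ≤ ((univ.filter fun x => f x ≠ 0).card : ℝ) := by
  classical
  have hp2 : (2 : ℝ) ≤ p := by exact_mod_cast (Fact.out : p.Prime).two_le
  have hp1 : (0 : ℝ) < (p : ℝ) - 1 := by linarith
  have hp0 : (0 : ℝ) < p := by linarith
  induction N with
  | zero =>
    intro D f _ hf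
    obtain ⟨x, hx⟩ : ∃ x, f x ≠ 0 := by
      by_contra hh
      push Not at hh
      exact hf (funext hh)
    have h1 : (1 : ℝ) ≤ ((univ.filter fun x => f x ≠ 0).card : ℝ) := by
      exact_mod_cast card_pos.2 ⟨x, mem_filter.2 ⟨mem_univ _, hx⟩⟩
    refine le_trans ?_ h1
    refine Real.rpow_le_one_of_one_le_of_nonpos (by linarith) ?_
    have : (0 : ℝ) ≤ (D : ℝ) / ((p : ℝ) - 1) := by positivity
    push_cast
    linarith
  | succ N ih =>
    intro D f hfm hf
    obtain ⟨g, h1, h2, h3⟩ := cons_decomp hfm
    have hne : (univ.filter fun j : Fin p => g j ≠ 0).Nonempty := by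
      by_contra hh
      rw [not_nonempty_iff_eq_empty, filter_eq_empty_iff] at hh
      apply hf
      funext y
      have hy : y = Fin.cons (y 0) (fun e => y e.succ) := by
        funext e
        refine Fin.cases ?_ (fun e => ?_) e <;> simp
      rw [hy, h1]
      refine sum_eq_zero fun j _ => ?_
      have : g j = 0 := not_not.1 (hh (mem_univ j))
      rw [this, Pi.zero_apply, zero_mul]
    set j := (univ.filter fun j : Fin p => g j ≠ 0).max' hne with hj
    have hj0 : g j ≠ 0 := (mem_filter.1 (max'_mem _ hne)).2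
    have hjD : (j : ℕ) ≤ D := by
      by_contra hh
      exact hj0 (h3 j (by omega))
    have hmax : ∀ i : Fin p, j < i → g i = 0 := by
      intro i hi
      by_contra hh
      have hmem : i ∈ univ.filter fun j : Fin p => g j ≠ 0 := mem_filter.2 ⟨mem_univ _, hh⟩
      have := le_max' _ i hmem
      exact absurd hi (not_lt.2 this)
    have hih := ih (D - j) (g j) (h2 j) hj0
    -- every point of the support of `g j` has at least `p - j` points above it
    have hfib : ∀ x ∈ univ.filter (fun x => g j x ≠ 0),
        p - j ≤ (univ.filter fun t : ZMod p => f (Fin.cons t x) ≠ 0).card := by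
      intro x hx
      rw [mem_filter] at hx
      set q : Polynomial (ZMod p) := ∑ i : Fin p, Polynomial.monomial (i : ℕ) (g i x) with hq
      have hqe : ∀ t, f (Fin.cons t x) = q.eval t := by
        intro t
        rw [h1, hq, Polynomial.eval_finsetSum]
        exact sum_congr rfl fun i _ => by rw [Polynomial.eval_monomial]
      have hqc : q.coeff j = g j x := by
        rw [hq, Polynomial.finsetSum_coeff, Finset.sum_eq_single j]
        · rw [Polynomial.coeff_monomial, if_pos rfl]
        · intro i _ hi
          rw [Polynomial.coeff_monomial, if_neg]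
          intro h
          exact hi (Fin.ext h)
        · intro h
          exact absurd (mem_univ _) h
      have hqd : q.natDegree ≤ j := by
        refine Polynomial.natDegree_sum_le_of_forall_le _ _ fun i _ => ?_
        by_cases hi : j < i
        · rw [hmax i hi]
          simp
        · refine (Polynomial.natDegree_monomial_le _).trans ?_
          exact Fin.le_def.1 (not_lt.1 hi)
      have hq0 : q ≠ 0 := by
        intro h
        rw [h, Polynomial.coeff_zero] at hqc
        exact hx.2 hqc.symm
      have hroots : (univ.filter fun t : ZMod p => f (Fin.cons t x) = 0).card ≤ j := by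
        have hsub : (univ.filter fun t : ZMod p => f (Fin.cons t x) = 0) ⊆ q.roots.toFinset := by
          intro t ht
          rw [mem_filter, hqe] at ht
          rw [Multiset.mem_toFinset, Polynomial.mem_roots hq0]
          exact ht.2
        exact (card_le_card hsub).trans ((Multiset.toFinset_card_le _).trans
          ((Polynomial.card_roots' q).trans hqd))
      have hsum := card_filter_add_card_filter_not (s := (univ : Finset (ZMod p)))
        (fun t : ZMod p => f (Fin.cons t x) = 0)
      rw [card_univ, ZMod.card] at hsum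
      have : (univ.filter fun t : ZMod p => f (Fin.cons t x) ≠ 0).card =
        (univ.filter fun t : ZMod p => ¬ f (Fin.cons t x) = 0).card := rfl
      omega
    have hcount : (univ.filter (fun x => g j x ≠ 0)).card * (p - j) ≤
        (univ.filter fun y => f y ≠ 0).card := by
      have h5 : (univ.filter (fun x => g j x ≠ 0)).card * (p - j) ≤
          ∑ x ∈ univ.filter (fun x => g j x ≠ 0),
            (univ.filter fun t : ZMod p => f (Fin.cons t x) ≠ 0).card := by
        rw [← smul_eq_mul]
        exact card_nsmul_le_sum _ _ _ hfib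
      refine h5.trans ?_
      rw [← card_sigma]
      refine card_le_card_of_injOn (fun q => (Fin.cons q.2 q.1 : Fin (N + 1) → ZMod p)) ?_ ?_
      · intro q hq
        have hq' := mem_sigma.1 (mem_coe.1 hq)
        exact mem_coe.2 (mem_filter.2 ⟨mem_univ _, (mem_filter.1 hq'.2).2⟩)
      · rintro ⟨x, t⟩ _ ⟨x', t'⟩ _ h
        have h' := Fin.cons_injective2 h
        obtain ⟨rfl, rfl⟩ := h'
        rfl
    have hcount' : ((univ.filter (fun x => g j x ≠ 0)).card : ℝ) * ((p : ℝ) - j) ≤
        ((univ.filter fun y => f y ≠ 0).card : ℝ) := by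
      have : (((univ.filter (fun x => g j x ≠ 0)).card * (p - j) : ℕ) : ℝ) ≤
          ((univ.filter fun y => f y ≠ 0).card : ℝ) := by exact_mod_cast hcount
      rw [Nat.cast_mul, Nat.cast_sub j.2.le] at this
      exact this
    refine le_trans ?_ hcount'
    have h6 := sub_ge_rpow (p := p) j j.2
    calc (p : ℝ) ^ (((N + 1 : ℕ) : ℝ) - D / ((p : ℝ) - 1))
        = (p : ℝ) ^ ((N : ℝ) - ((D - j : ℕ) : ℝ) / ((p : ℝ) - 1)) *
          (p : ℝ) ^ (1 - ((j : ℕ) : ℝ) / ((p : ℝ) - 1)) := by
          rw [← Real.rpow_add hp0]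
          congr 1
          rw [Nat.cast_sub hjD]
          push_cast
          ring
      _ ≤ _ := by gcongr

end Pool.Agent.K6.H42.LR
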