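import Mathlib
import Pool.Agent.K6.H42.LR.Greedy
import Pool.Agent.K6.H42.LR.Supp

/-!
# Progression-free sets defined by conditions of low rank and by quadratic equations
-/

set_option autoImplicit false

namespace Pool.Agent.K6.H42.LR

open Finset Module Pool.Agent.TH360.RS

variable {p : ℕ} [Fact p.Prime] {n m d r q : ℕ}

theorem eval_mem_Pol (P : MvPolynomial (Fin n) (ZMod p)) (hP : P.totalDegree ≤ d) :
    (fun x => MvPolynomial.eval x P) ∈ Pol p (Fin n) d := by
  have h1 : (fun x => MvPolynomial.eval x P) =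
      ∑ u ∈ P.support, P.coeff u • mono (p := p) (fun i => u i) := by
    funext x
    rw [MvPolynomial.eval_eq', Finset.sum_apply]
    rfl
  rw [h1]
  refine Submodule.sum_mem _ fun u hu => Submodule.smul_mem _ _ (mono_mem_Pol ?_)
  have h2 := MvPolynomial.le_totalDegree hu
  rw [Finsupp.sum_fintype _ _ (fun _ => rfl)] at h2
  exact h2.trans hP

theorem density (g : (Fin n → ZMod p) → ZMod p) (hg : g ∈ Pol p (Fin n) (q * (p - 1)))
    (W : Submodule (ZMod p) (Fin n → ZMod p)) (x₂ : Fin n → ZMod p)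
    (hne : ∃ x, x - x₂ ∈ W ∧ g x ≠ 0) :
    (Nat.card {x | g x = 0 ∧ x - x₂ ∈ W} : ℝ) ≤ (1 - 1 / (p : ℝ) ^ q) * Nat.card W := by
  classical
  have hp2 : (2 : ℝ) ≤ p := by exact_mod_cast (Fact.out : p.Prime).two_le
  have hp1 : (0 : ℝ) < (p : ℝ) - 1 := by linarith
  have hp0 : (0 : ℝ) < p := by linarith
  set N := finrank (ZMod p) W with hN
  let φ : (Fin N → ZMod p) ≃ₗ[ZMod p] W := LinearEquiv.ofFinrankEq _ _ (by simp [hN])
  set X : (Fin N → ZMod p) → (Fin n → ZMod p) := fun u => x₂ + (φ u : Fin n → ZMod p) with hX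
  set f : (Fin N → ZMod p) → ZMod p := fun u => g (X u) with hf
  have hfm : f ∈ Pol p (Fin N) (q * (p - 1)) := by
    refine comp_mem_Pol hg X fun e => ?_
    let ψ : (Fin N → ZMod p) →ₗ[ZMod p] ZMod p :=
      (LinearMap.proj e).comp (W.subtype.comp φ.toLinearMap)
    have h2 := linear_mem_Pol ψ
    have h1 : (fun v : Fin N → ZMod p => X v e) =
        x₂ e • (1 : (Fin N → ZMod p) → ZMod p) + fun v => ψ v := by
      funext v
      simp [hX, ψ]
    rw [h1]
    exact Submodule.add_mem _ (Submodule.smul_mem _ _ (one_mem_Pol 1)) h2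
  have hf0 : f ≠ 0 := by
    obtain ⟨x, hx, hgx⟩ := hne
    intro h
    apply hgx
    have h1 := congr_fun h (φ.symm ⟨x - x₂, hx⟩)
    have h2 : X (φ.symm ⟨x - x₂, hx⟩) = x := by simp [hX]
    rw [hf] at h1
    simp only [h2, Pi.zero_apply] at h1
    exact h1
  have hsupp := supp_bound N _ f hfm hf0
  have hcard : Nat.card {x | g x = 0 ∧ x - x₂ ∈ W} = (univ.filter fun u => f u = 0).card := by
    rw [show (univ.filter fun u => f u = 0).card = Nat.card {u // f u = 0} by
      rw [Nat.card_eq_fintype_card, Fintype.card_subtype]]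
    symm
    refine Nat.card_congr ⟨fun u => ⟨X u, ?_, ?_⟩, fun x => ⟨φ.symm ⟨x - x₂, x.2.2⟩, ?_⟩, ?_, ?_⟩
    · exact u.2
    · simp [hX]
    · have : X (φ.symm ⟨x - x₂, x.2.2⟩) = x := by simp [hX]
      rw [hf]
      simp only [this]
      exact x.2.1
    · intro u
      apply Subtype.ext
      simp [hX]
    · intro x
      apply Subtype.ext
      simp [hX]
  have hsum := card_filter_add_card_filter_not (s := (univ : Finset (Fin N → ZMod p)))
    (fun u => f u = 0)
  rw [card_univ, Fintype.card_pi_const, ZMod.card] at hsum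
  have hsum' : ((univ.filter fun u => f u = 0).card : ℝ) +
      ((univ.filter fun u => f u ≠ 0).card : ℝ) = (p : ℝ) ^ N := by
    exact_mod_cast hsum
  have hexp : (p : ℝ) ^ ((N : ℝ) - ((q * (p - 1) : ℕ) : ℝ) / ((p : ℝ) - 1)) =
      1 / (p : ℝ) ^ q * (p : ℝ) ^ N := by
    have h1 : ((q * (p - 1) : ℕ) : ℝ) / ((p : ℝ) - 1) = q := by
      rw [Nat.cast_mul, Nat.cast_sub (Fact.out : p.Prime).one_le]
      push_cast
      field_simp
    rw [h1, Real.rpow_sub hp0, Real.rpow_natCast, Real.rpow_natCast]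
    ring
  rw [hexp] at hsupp
  rw [hcard, card_sub W]
  push_cast
  linarith

/-- The set is decided by the values of `r` linear forms. -/
def Decided (r : ℕ) (S : Set (Fin n → ZMod p)) : Prop :=
  ∃ (ℓ : (Fin n → ZMod p) →ₗ[ZMod p] (Fin r → ZMod p)) (B : Set (Fin r → ZMod p)),
    S = {x | ℓ x ∈ B}

/-- every function of `r` linear forms has degree at most `r (p - 1)` -/
theorem fun_mem_Pol (h : (Fin r → ZMod p) → ZMod p) : h ∈ Pol p (Fin r) (r * (p - 1)) := by
  classical
  have h1 : h = ∑ b : Fin r → ZMod p, h b • ∏ i : Fin r, (fun y : Fin r → ZMod p =>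
      1 - (y i - b i) ^ (p - 1)) := by
    funext y
    rw [Finset.sum_apply, Finset.sum_eq_single y]
    · rw [Pi.smul_apply, Finset.prod_apply, prod_eq_one, smul_eq_mul, mul_one]
      intro i _
      have hp2 := (Fact.out : p.Prime).two_le
      rw [sub_self, zero_pow (by omega), sub_zero]
    · intro b _ hb
      rw [Pi.smul_apply, Finset.prod_apply]
      obtain ⟨i, hi⟩ : ∃ i, y i ≠ b i := by
        by_contra hh
        push Not at hh
        exact hb (funext hh).symm
      rw [prod_eq_zero (mem_univ i), smul_zero]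
      rw [ZMod.pow_card_sub_one_eq_one (sub_ne_zero.2 hi), sub_self]
    · intro hh
      exact absurd (mem_univ _) hh
  rw [h1]
  refine Submodule.sum_mem _ fun b _ => Submodule.smul_mem _ _ ?_
  have h2 := prod_mem_Pol (p := p) (univ : Finset (Fin r)) (fun i => (fun y : Fin r → ZMod p =>
      1 - (y i - b i) ^ (p - 1))) (fun _ => p - 1) (fun i _ => by
    have a1 : (fun y : Fin r → ZMod p => y i - b i) ∈ Pol p (Fin r) 1 := by
      have : (fun y : Fin r → ZMod p => y i - b i) =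
          (fun y => y i) - b i • (1 : (Fin r → ZMod p) → ZMod p) := by
        funext y
        simp
      rw [this]
      exact Submodule.sub_mem _ (coord_mem_Pol i) (Submodule.smul_mem _ _ (one_mem_Pol 1))
    have a2 := pow_mem_Pol a1 (p - 1)
    rw [mul_one] at a2
    exact Submodule.sub_mem _ (one_mem_Pol _) a2)
  simpa using h2

theorem zero_of_decided {S : Set (Fin n → ZMod p)} (hS : Decided r S) (hrq : r ≤ q) :
    ∃ g ∈ Pol p (Fin n) (q * (p - 1)), S = {x | g x = 0} := by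
  classical
  obtain ⟨ℓ, B, rfl⟩ := hS
  refine ⟨fun x => if ℓ x ∈ B then 0 else 1, ?_, ?_⟩
  · have h1 := comp_mem_Pol (fun_mem_Pol (p := p) (fun y : Fin r → ZMod p =>
      if y ∈ B then (0 : ZMod p) else 1)) (fun x => ℓ x) (fun e => linear_mem_Pol
      ((LinearMap.proj e).comp ℓ))
    exact Pol_mono (Nat.mul_le_mul_right _ hrq) h1
  · ext x
    simp

theorem zero_of_poly (P : (Fin n → ZMod p) → ZMod p) (hP : P ∈ Pol p (Fin n) q)
    (B : Set (ZMod p)) : ∃ g ∈ Pol p (Fin n) (q * (p - 1)), {x | P x ∈ B} = {x | g x = 0} := by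
  classical
  by_cases hB : B = Set.univ
  · exact ⟨0, Submodule.zero_mem _, by rw [hB]; simp⟩
  · obtain ⟨c, hc⟩ := (Set.ne_univ_iff_exists_notMem B).1 hB
    refine ⟨∏ b ∈ univ.filter (fun b => b ∈ B), (fun x => P x - b), ?_, ?_⟩
    · have h1 := prod_mem_Pol (univ.filter (fun b => b ∈ B)) (fun b => (fun x => P x - b))
        (fun _ => q) (fun b _ => by
          have : (fun x => P x - b) = P - b • (1 : (Fin n → ZMod p) → ZMod p) := by
            funext x
            simp
          rw [this]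
          exact Submodule.sub_mem _ hP (Submodule.smul_mem _ _ (one_mem_Pol q)))
      refine Pol_mono ?_ h1
      rw [sum_const, smul_eq_mul, mul_comm]
      refine Nat.mul_le_mul_left _ ?_
      have h2 : (univ.filter (fun b => b ∈ B)).card < (univ : Finset (ZMod p)).card :=
        card_lt_card ⟨filter_subset _ _, fun h => hc (mem_filter.1 (h (mem_univ c))).2⟩
      rw [card_univ, ZMod.card] at h2
      omega
    · ext x
      simp only [Set.mem_ofPred_eq, Finset.prod_apply, prod_eq_zero_iff, mem_filter, mem_univ,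
        true_and]
      constructor
      · intro h
        exact ⟨P x, h, sub_self _⟩
      · rintro ⟨b, hb, h⟩
        rw [sub_eq_zero.1 h]
        exact hb

theorem piece (hp : 3 ≤ p) (hr : 1 ≤ r) (hq : 1 ≤ q) (𝒮 : Set (Set (Fin n → ZMod p)))
    (h𝒮 : ∀ S ∈ 𝒮, Decided r S ∧ ∃ g ∈ Pol p (Fin n) (q * (p - 1)), S = {x | g x = 0})
    (𝒬 : Set ((Fin n → ZMod p) → ZMod p)) (h𝒬 : ∀ Q ∈ 𝒬, Q ∈ Pol p (Fin n) 2)
    (P : Fin m → (Fin n → ZMod p) → ZMod p) (hP : ∀ l, P l ∈ Pol p (Fin n) d)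
    (C : Fin m → Set (ZMod p)) (A : Set (Fin n → ZMod p))
    (hA : A = {x | x ∈ PolySet 𝒬 P C ∧ ∀ S ∈ 𝒮, x ∈ S}) (hfree : LineFree p A) :
    (Nat.card A : ℝ) ≤ (p : ℝ) ^ n *
      (3 * Real.exp (m * p * (d + 1) - n / (12 * (r : ℝ) ^ 2 * (p : ℝ) ^ q))) := by
  have hp3 : (3 : ℝ) ≤ p := by exact_mod_cast hp
  have hr1 : (1 : ℝ) ≤ r := by exact_mod_cast hr
  have hpq : (3 : ℝ) ≤ (p : ℝ) ^ q := by
    calc (3 : ℝ) ≤ p := hp3
      _ = (p : ℝ) ^ 1 := (pow_one _).symm
      _ ≤ (p : ℝ) ^ q := pow_le_pow_right₀ (by linarith) hq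
  set B : ℝ := 3 * Real.exp (m * p * (d + 1) - n / (12 * (r : ℝ) ^ 2 * (p : ℝ) ^ q)) with hB
  set s := n / (r * (r + 1)) with hs
  have hc : 2 * cost s r ≤ n := by
    rw [two_mul_cost]
    exact Nat.div_mul_le_self n _
  set L := n - cost s r with hL
  have hL2 : n ≤ 2 * L := by omega
  set β : ℝ := 3 * Real.exp (-(n / 36) + m * p * (d + 1)) with hβ
  have hgood : ∀ (W : Submodule (ZMod p) (Fin n → ZMod p)) (x₁ : Fin n → ZMod p),
      L ≤ finrank (ZMod p) W → LineFree p (Sec (PolySet 𝒬 P C) W x₁) →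
      (Nat.card (Sec (PolySet 𝒬 P C) W x₁) : ℝ) ≤ (p : ℝ) ^ finrank (ZMod p) W * β := by
    intro W x₁ hW hf
    refine (base' hp 𝒬 h𝒬 P hP C W x₁ hf).trans ?_
    refine mul_le_mul_of_nonneg_left (mul_le_mul_of_nonneg_left (Real.exp_le_exp.2 ?_)
      (by norm_num)) (by positivity)
    have h1 : (n : ℝ) ≤ 2 * finrank (ZMod p) W := by
      have : n ≤ 2 * finrank (ZMod p) W := by omega
      exact_mod_cast this
    linarith
  have hden0 : (0 : ℝ) < 12 * (r : ℝ) ^ 2 * (p : ℝ) ^ q := by positivity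
  have hr2 : (1 : ℝ) ≤ (r : ℝ) ^ 2 := one_le_pow₀ hr1
  have hβB : β ≤ B := by
    refine mul_le_mul_of_nonneg_left (Real.exp_le_exp.2 ?_) (by norm_num)
    have h1 : (n : ℝ) / (12 * (r : ℝ) ^ 2 * (p : ℝ) ^ q) ≤ n / 36 := by
      refine div_le_div_of_nonneg_left (by positivity) (by norm_num) ?_
      nlinarith
    linarith
  set η : ℝ := 1 / (p : ℝ) ^ q with hη
  have hη0 : 0 < η := by positivity
  have hη1 : η ≤ 1 / 3 := one_div_le_one_div_of_le (by norm_num) hpq
  have hsn : (n : ℝ) / (r * (r + 1)) - 1 ≤ s := by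
    have h1 : n < (s + 1) * (r * (r + 1)) := by
      rw [hs, mul_comm]
      exact Nat.lt_mul_div_succ n (by positivity)
    have h2 : (n : ℝ) ≤ (s + 1) * (r * (r + 1)) := by exact_mod_cast h1.le
    have h3 : (n : ℝ) / (r * (r + 1)) ≤ s + 1 := by
      rw [div_le_iff₀ (by positivity)]
      exact h2
    linarith
  have hmp : (0 : ℝ) ≤ m * p * (d + 1) := by positivity
  have hηs : (1 - η) ^ s ≤ B := by
    have h1 : 1 - η ≤ Real.exp (-η) := by
      have := Real.add_one_le_exp (-η)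
      linarith
    calc (1 - η) ^ s ≤ (Real.exp (-η)) ^ s := pow_le_pow_left₀ (by linarith) h1 s
      _ = Real.exp (-(η * s)) := by rw [← Real.exp_nat_mul]; congr 1; ring
      _ ≤ Real.exp (1 + (m * p * (d + 1) - n / (12 * (r : ℝ) ^ 2 * (p : ℝ) ^ q))) := by
          refine Real.exp_le_exp.2 ?_
          have h2 : η * ((n : ℝ) / (r * (r + 1)) - 1) ≤ η * s :=
            mul_le_mul_of_nonneg_left hsn hη0.le
          have h3 : (n : ℝ) / (12 * (r : ℝ) ^ 2 * (p : ℝ) ^ q) ≤ η * ((n : ℝ) / (r * (r + 1))) := by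
            rw [hη, div_mul_div_comm, one_mul]
            refine div_le_div_of_nonneg_left (by positivity) (by positivity) ?_
            have h4 : (r : ℝ) * (r + 1) ≤ 12 * (r : ℝ) ^ 2 := by nlinarith
            calc (p : ℝ) ^ q * (r * (r + 1)) ≤ (p : ℝ) ^ q * (12 * (r : ℝ) ^ 2) := by gcongr
              _ = _ := by ring
          linarith
      _ = Real.exp 1 * Real.exp (m * p * (d + 1) - n / (12 * (r : ℝ) ^ 2 * (p : ℝ) ^ q)) :=
          Real.exp_add _ _
      _ ≤ B := by
          refine mul_le_mul_of_nonneg_right ?_ (Real.exp_pos _).le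
          have := Real.exp_one_lt_d9
          linarith
  -- the subspaces
  have hdec : ∀ S : 𝒮, ∃ K : Submodule (ZMod p) (Fin n → ZMod p),
      n ≤ finrank (ZMod p) K + r ∧ ∀ x y, y - x ∈ K → (x ∈ (S : Set _) ↔ y ∈ (S : Set _)) := by
    intro S
    obtain ⟨⟨ℓ, B', hS⟩, _⟩ := h𝒮 S S.2
    refine ⟨LinearMap.ker ℓ, ?_, ?_⟩
    · have h1 := LinearMap.finrank_range_add_finrank_ker ℓ
      have h2 : finrank (ZMod p) (LinearMap.range ℓ) ≤ r := by
        refine (Submodule.finrank_le _).trans ?_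
        rw [finrank_fin_fun]
      rw [finrank_fin_fun] at h1
      omega
    · intro x y hxy
      have : ℓ x = ℓ y := by
        rw [LinearMap.mem_ker, map_sub, sub_eq_zero] at hxy
        exact hxy.symm
      rw [hS]
      simp only [Set.mem_ofPred_eq]
      rw [this]
  choose K hK1 hK2 using hdec
  have hAe : A = {x | (x ∈ PolySet 𝒬 P C ∧ ∀ i : 𝒮, x ∈ (i : Set _)) ∧
      x - 0 ∈ (⊤ : Submodule (ZMod p) (Fin n → ZMod p))} := by
    rw [hA]
    ext x
    constructor
    · rintro ⟨a, b⟩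
      exact ⟨⟨a, fun i => b i i.2⟩, Submodule.mem_top⟩
    · rintro ⟨⟨a, b⟩, _⟩
      exact ⟨a, fun S hS => b ⟨S, hS⟩⟩
  have hmain := main_ind (PolySet 𝒬 P C) L β hgood s B hβB η (by linarith) hηs (by positivity) r
    𝒮 ⊤ 0 (fun i => (i : Set _)) K (fun i => le_top) (fun i => by
      rw [finrank_top, finrank_fin_fun]
      exact hK1 i) (fun i x y _ hxy => hK2 i x y hxy) (fun i W' x₂ hx => by
      obtain ⟨_, g, hg, hS⟩ := h𝒮 i i.2
      have h1 := density (q := q) g hg W' x₂ (by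
        obtain ⟨x, hx1, hx2⟩ := hx
        refine ⟨x, hx1, fun h => hx2 ?_⟩
        rw [hS]
        exact h)
      have h2 : {x | x ∈ (i : Set (Fin n → ZMod p)) ∧ x - x₂ ∈ W'} =
          {x | g x = 0 ∧ x - x₂ ∈ W'} := by
        rw [hS]
        rfl
      rw [h2]
      exact h1) (by
      rw [finrank_top, finrank_fin_fun]
      omega) (by
      rw [← hAe]
      exact hfree)
  rw [← hAe, finrank_top, finrank_fin_fun] at hmain
  exact hmain

end Pool.Agent.K6.H42.LR
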